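import Pool.Agent.Y271.RO.Stm

/-!
# Project RO, part HT: area Cauchy transforms of bounded functions

The lemmas `area_unit` and `area_bound` are copied from `Pool/Agent/Y891/NK/AREA.lean` (helper891).
-/

set_option autoImplicit false

namespace Pool.Agent.Y948.RO

open MeasureTheory Set Metric Filter Topology
open scoped ENNReal NNReal
open Pool.Agent.Y271.RO

theorem area_unit : ∫⁻ z in ball (0:ℂ) 1, ‖z‖ₑ⁻¹ ≠ ⊤ := by
  have h := integrableOn_ball_of_norm_le_rpow (E := ℂ) (F := ℝ) (μ := volume)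
    (f := fun z => ‖z‖⁻¹) (C := 1) (α := 1) (r := 1) (by rw [Complex.finrank_real_complex]; norm_num)
    (by rw [Complex.finrank_real_complex]; norm_num) (Eventually.of_forall fun z => by
      rw [norm_inv, norm_norm, one_mul, Real.rpow_neg (norm_nonneg z), Real.rpow_one])
    (by fun_prop)
  have h2 := h.2
  unfold HasFiniteIntegral at h2
  refine ne_top_of_le_ne_top h2.ne (le_of_eq ?_)
  refine lintegral_congr_ae ?_
  have h0 : ∀ᵐ z : ℂ ∂(volume.restrict (ball (0:ℂ) 1)), z ≠ 0 := by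
    apply ae_restrict_of_ae
    have : (volume : Measure ℂ) {0} = 0 := measure_singleton 0
    exact compl_mem_ae_iff.2 this
  filter_upwards [h0] with z hz
  have hz0 : 0 < ‖z‖ := norm_pos_iff.2 hz
  rw [Real.enorm_eq_ofReal (by positivity), ENNReal.ofReal_inv_of_pos hz0, ofReal_norm]

theorem area_bound (R : ℝ) : ∃ C : ℝ≥0, ∀ w : ℂ, ∫⁻ z in ball (0:ℂ) R, ‖z - w‖ₑ⁻¹ ≤ C := by
  obtain ⟨A, hA⟩ : ∃ A : ℝ≥0∞, A = ∫⁻ z in ball (0:ℂ) 1, ‖z‖ₑ⁻¹ := ⟨_, rfl⟩
  have hA' : A ≠ ⊤ := by rw [hA]; exact area_unit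
  have hV : (volume : Measure ℂ) (ball (0:ℂ) R) ≠ ⊤ := measure_ball_lt_top.ne
  refine ⟨(A + volume (ball (0:ℂ) R)).toNNReal, fun w => ?_⟩
  rw [ENNReal.coe_toNNReal (ENNReal.add_ne_top.2 ⟨hA', hV⟩)]
  have hb : ∀ z : ℂ, ‖z - w‖ₑ⁻¹ ≤ (ball (0:ℂ) 1).indicator (fun z => ‖z‖ₑ⁻¹) (z - w) + 1 := by
    intro z
    by_cases hz : z - w ∈ ball (0:ℂ) 1
    · rw [indicator_of_mem hz]
      exact le_self_add
    · rw [indicator_of_notMem hz, zero_add]
      rw [mem_ball_zero_iff, not_lt] at hz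
      rw [ENNReal.inv_le_one, ← ofReal_norm]
      exact ENNReal.one_le_ofReal.2 hz
  calc ∫⁻ z in ball (0:ℂ) R, ‖z - w‖ₑ⁻¹
      ≤ ∫⁻ z in ball (0:ℂ) R, ((ball (0:ℂ) 1).indicator (fun z => ‖z‖ₑ⁻¹) (z - w) + 1) :=
        lintegral_mono fun z => hb z
    _ = (∫⁻ z in ball (0:ℂ) R, (ball (0:ℂ) 1).indicator (fun z => ‖z‖ₑ⁻¹) (z - w)) +
          volume (ball (0:ℂ) R) := by
        rw [lintegral_add_right _ measurable_const, setLIntegral_const, one_mul]
    _ ≤ (∫⁻ z : ℂ, (ball (0:ℂ) 1).indicator (fun z => ‖z‖ₑ⁻¹) (z - w)) +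
          volume (ball (0:ℂ) R) := by
        exact add_le_add_left (setLIntegral_le_lintegral _ _) _
    _ = A + volume (ball (0:ℂ) R) := by
        rw [lintegral_sub_right_eq_self (fun z : ℂ => (ball (0:ℂ) 1).indicator
          (fun z => ‖z‖ₑ⁻¹) z) w, lintegral_indicator measurableSet_ball, hA]

/-- the bound for all discs of the same radius -/
theorem area_bound' (R : ℝ) : ∃ C : ℝ≥0, ∀ c w : ℂ, ∫⁻ z in ball c R, ‖z - w‖ₑ⁻¹ ≤ C := by
  obtain ⟨C, hC⟩ := area_bound R
  refine ⟨C, fun c w => ?_⟩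
  have h1 : ∫⁻ z in ball c R, ‖z - w‖ₑ⁻¹ =
      ∫⁻ z : ℂ, (ball (0:ℂ) R).indicator (fun z => ‖z - (w - c)‖ₑ⁻¹) (z - c) := by
    rw [← lintegral_indicator measurableSet_ball]
    refine lintegral_congr fun z => ?_
    by_cases hz : z ∈ ball c R
    · have hz' : z - c ∈ ball (0:ℂ) R := by
        rw [mem_ball_zero_iff, ← dist_eq_norm]
        exact hz
      rw [indicator_of_mem hz, indicator_of_mem hz', sub_sub_sub_cancel_right]
    · have hz' : z - c ∉ ball (0:ℂ) R := by
        rw [mem_ball_zero_iff, ← dist_eq_norm]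
        exact hz
      rw [indicator_of_notMem hz, indicator_of_notMem hz']
  rw [h1, lintegral_sub_right_eq_self (fun z : ℂ => (ball (0:ℂ) R).indicator
    (fun z => ‖z - (w - c)‖ₑ⁻¹) z) c, lintegral_indicator measurableSet_ball]
  exact hC (w - c)

theorem main : S_HT := by
  intro r _
  obtain ⟨C, hC⟩ := area_bound' r
  refine ⟨C, C.2, fun c M g hg => ?_⟩
  have hmeas2 : Measurable (fun p : ℂ × ℂ => g p.2 * (p.2 - p.1)⁻¹) :=
    (hg.meas.comp measurable_snd).mul (measurable_snd.sub measurable_fst).inv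
  have hmeasl : ∀ l, Measurable (fun z => g z * (z - l)⁻¹) := fun l =>
    hg.meas.mul (measurable_id.sub_const l).inv
  -- the main bound
  have hbd : ∀ l, ∫⁻ z, ‖g z * (z - l)⁻¹‖ₑ ≤ ENNReal.ofReal M * C := by
    intro l
    calc ∫⁻ z, ‖g z * (z - l)⁻¹‖ₑ
        ≤ ∫⁻ z, (ball c r).indicator (fun z => ENNReal.ofReal M * ‖z - l‖ₑ⁻¹) z := by
          refine lintegral_mono fun z => ?_
          by_cases hz : z ∈ ball c r
          · rw [indicator_of_mem hz, enorm_mul]
            refine mul_le_mul' ?_ ?_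
            · rw [← ofReal_norm]
              exact ENNReal.ofReal_le_ofReal (hg.bd z)
            · by_cases h0 : z - l = 0
              · rw [h0]
                simp
              · rw [enorm_inv h0]
          · rw [hg.supp z hz, zero_mul, enorm_zero]
            exact zero_le
      _ = ENNReal.ofReal M * ∫⁻ z in ball c r, ‖z - l‖ₑ⁻¹ := by
          rw [lintegral_indicator measurableSet_ball, lintegral_const_mul']
          exact ENNReal.ofReal_ne_top
      _ ≤ ENNReal.ofReal M * C := by gcongr; exact hC c l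
  have hint : ∀ l, Integrable (fun z => g z * (z - l)⁻¹) := fun l =>
    ⟨(hmeasl l).aestronglyMeasurable,
      lt_of_le_of_lt (hbd l) (ENNReal.mul_lt_top ENNReal.ofReal_lt_top ENNReal.coe_lt_top)⟩
  have hg1 : Integrable g := by
    have h1 : IntegrableOn g (ball c r) :=
      Measure.integrableOn_of_bounded (M := M) measure_ball_lt_top.ne
        hg.meas.aestronglyMeasurable (Eventually.of_forall fun z => hg.bd z)
    refine (integrableOn_iff_integrable_of_support_subset ?_).1 h1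
    intro z hz
    by_contra h
    exact hz (hg.supp z h)
  refine ⟨hg1, ?_, hint, fun l => ?_, fun b l => ?_⟩
  · exact (StronglyMeasurable.integral_prod_right
      (f := fun (l z : ℂ) => g z * (z - l)⁻¹) hmeas2.stronglyMeasurable).measurable
  · unfold ht
    refine (norm_integral_le_lintegral_norm _).trans ?_
    have h2 : ∫⁻ z, ENNReal.ofReal ‖g z * (z - l)⁻¹‖ ≤ ENNReal.ofReal M * C := by
      refine le_trans (le_of_eq (lintegral_congr fun z => ?_)) (hbd l)
      rw [ofReal_norm]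
    have h3 := ENNReal.toReal_mono
      (ENNReal.mul_lt_top ENNReal.ofReal_lt_top ENNReal.coe_lt_top).ne h2
    rw [ENNReal.toReal_mul, ENNReal.toReal_ofReal hg.nonneg, ENNReal.coe_toReal, mul_comm] at h3
    exact h3
  · unfold ht
    rw [← integral_const_mul, ← integral_add ((hint l).const_mul _) hg1]
    refine integral_congr_ae ?_
    have h0 : ∀ᵐ z : ℂ, z ≠ l := by
      have : (volume : Measure ℂ) {l} = 0 := measure_singleton l
      exact compl_mem_ae_iff.2 this
    filter_upwards [h0] with z hz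
    have hz' : z - l ≠ 0 := sub_ne_zero.2 hz
    field_simp
    ring

end Pool.Agent.Y948.RO
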